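import Pool.Agent.W345.SP.Stm

/-!
# Project SP (helper345): composition detects that a curve moves
-/

set_option autoImplicit false

namespace Pool.Agent.W688.SP

open Set MeasureTheory Pool.Agent.W345.SP

/-- a monotone right inverse of a continuous function on an interval -/
theorem right_inv {x : ℝ → ℝ} {a t : ℝ} (hat : a ≤ t) (hx : ContinuousOn x (Icc a t)) :
    ∃ τ : ℝ → ℝ, MonotoneOn τ (Icc (x a) (x t)) ∧ MapsTo τ (Icc (x a) (x t)) (Icc a t) ∧
      ∀ u ∈ Icc (x a) (x t), x (τ u) = u := by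
  have hS : ∀ u, {s | s ∈ Icc a t ∧ u ≤ x s} = Icc a t ∩ x ⁻¹' Ici u := fun u => rfl
  have hcl : ∀ u, IsClosed {s | s ∈ Icc a t ∧ u ≤ x s} := fun u => by
    rw [hS]
    exact hx.preimage_isClosed_of_isClosed isClosed_Icc isClosed_Ici
  have hbd : ∀ u, BddBelow {s | s ∈ Icc a t ∧ u ≤ x s} := fun u => ⟨a, fun s hs => hs.1.1⟩
  have hne : ∀ u ∈ Icc (x a) (x t), {s | s ∈ Icc a t ∧ u ≤ x s}.Nonempty := fun u hu =>
    ⟨t, right_mem_Icc.2 hat, hu.2⟩
  have hmem : ∀ u ∈ Icc (x a) (x t), sInf {s | s ∈ Icc a t ∧ u ≤ x s} ∈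
      {s | s ∈ Icc a t ∧ u ≤ x s} := fun u hu => (hcl u).csInf_mem (hne u hu) (hbd u)
  refine ⟨fun u => sInf {s | s ∈ Icc a t ∧ u ≤ x s}, ?_, fun u hu => (hmem u hu).1, ?_⟩
  · intro u hu u' hu' h
    apply csInf_le_csInf (hbd u) (hne u' hu')
    intro s hs
    exact ⟨hs.1, h.trans hs.2⟩
  · intro u hu
    have h1 := hmem u hu
    obtain ⟨s, hs, hsu⟩ := intermediate_value_Icc h1.1.1
      (hx.mono (Icc_subset_Icc le_rfl h1.1.2)) ⟨hu.1, h1.2⟩
    have h2 : sInf {s | s ∈ Icc a t ∧ u ≤ x s} ≤ s :=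
      csInf_le (hbd u) ⟨⟨hs.1, hs.2.trans h1.1.2⟩, hsu.ge⟩
    have h3 : s = sInf {s | s ∈ Icc a t ∧ u ≤ x s} := le_antisymm hs.2 h2
    show x (sInf {s | s ∈ Icc a t ∧ u ≤ x s}) = u
    rw [← h3]
    exact hsu

theorem crv : S_CRV := by
  intro g hg a b x _ hx hv t ht
  by_contra hne
  have hsub : Icc a t ⊆ Icc a b := Icc_subset_Icc le_rfl ht.2
  rcases lt_or_gt_of_ne (Ne.symm hne) with h | h
  · obtain ⟨τ, h1, h2, h3⟩ := right_inv ht.1 (hx.mono hsub)
    apply hv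
    rw [eq_top_iff, ← hg.2.2 (x a) (x t) h]
    have h4 : eVariationOn g (Icc (x a) (x t)) =
        eVariationOn ((fun s => g (x s)) ∘ τ) (Icc (x a) (x t)) := by
      apply eVariationOn.eq_of_eqOn
      intro u hu
      show g u = g (x (τ u))
      rw [h3 u hu]
    rw [h4]
    exact eVariationOn.comp_le_of_monotoneOn _ τ h1 (h2.mono_right hsub)
  · obtain ⟨τ, h1, h2, h3⟩ := right_inv (x := fun s => -x s) ht.1 (hx.mono hsub).neg
    apply hv
    rw [eq_top_iff, ← hg.2.2 (x t) (x a) h]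
    have hm : ∀ u ∈ Icc (x t) (x a), -u ∈ Icc (-x a) (-x t) := fun u hu =>
      ⟨neg_le_neg hu.2, neg_le_neg hu.1⟩
    have h4 : eVariationOn g (Icc (x t) (x a)) =
        eVariationOn ((fun s => g (x s)) ∘ fun u => τ (-u)) (Icc (x t) (x a)) := by
      apply eVariationOn.eq_of_eqOn
      intro u hu
      show g u = g (x (τ (-u)))
      have h5 := h3 (-u) (hm u hu)
      rw [neg_inj.1 h5]
    rw [h4]
    apply eVariationOn.comp_le_of_antitoneOn
    · intro u hu u' hu' huu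
      exact h1 (hm u' hu') (hm u hu) (neg_le_neg huu)
    · intro u hu
      exact hsub (h2 (hm u hu))

end Pool.Agent.W688.SP
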