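import Pool.Agent.W345.SP.Stm

/-!
# Project SP (helper345): a bounded continuous function of unbounded variation on every interval
-/

set_option autoImplicit false

namespace Pool.Agent.W688.SP

open Set MeasureTheory Pool.Agent.W345.SP

/-- distance to the integers -/
noncomputable def ss (x : ℝ) : ℝ := Metric.infDist x (range ((↑) : ℤ → ℝ))

theorem ss_nonneg (x : ℝ) : 0 ≤ ss x := Metric.infDist_nonneg

theorem ss_le_one (x : ℝ) : ss x ≤ 1 := by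
  have h1 : ss x ≤ dist x ((⌊x⌋ : ℤ) : ℝ) := Metric.infDist_le_dist_of_mem ⟨⌊x⌋, rfl⟩
  have h2 := Int.floor_le x
  have h3 := Int.lt_floor_add_one x
  rw [Real.dist_eq, abs_of_nonneg (by linarith)] at h1
  linarith

theorem ss_int (z : ℤ) : ss (z : ℝ) = 0 := Metric.infDist_zero_of_mem ⟨z, rfl⟩

theorem ss_lip (x y : ℝ) : |ss x - ss y| ≤ |x - y| := by
  have h := (Metric.lipschitz_infDist_pt (range ((↑) : ℤ → ℝ))).dist_le_mul x y
  rw [NNReal.coe_one, one_mul, Real.dist_eq, Real.dist_eq] at h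
  exact h

theorem ss_cont : Continuous ss := Metric.continuous_infDist_pt _

theorem ss_half (z : ℤ) : 1 / 2 ≤ ss ((z : ℝ) + 1 / 2) := by
  unfold ss
  rw [Metric.le_infDist (range_nonempty _)]
  rintro _ ⟨w, rfl⟩
  rw [Real.dist_eq]
  rcases le_or_gt w z with h | h
  · have h1 : (w : ℝ) ≤ z := by exact_mod_cast h
    rw [abs_of_nonneg (by linarith)]
    linarith
  · have h1 : (z : ℝ) + 1 ≤ w := by exact_mod_cast h
    rw [abs_of_nonpos (by linarith)]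
    linarith

/-- the increments of the main term -/
theorem ss_step (z : ℤ) : 1 / 2 ≤ |ss (((z : ℝ) + 1) / 2) - ss ((z : ℝ) / 2)| := by
  rcases Int.even_or_odd' z with ⟨w, rfl | rfl⟩
  · have e1 : (((2 * w : ℤ) : ℝ) + 1) / 2 = (w : ℝ) + 1 / 2 := by push_cast; ring
    have e2 : ((2 * w : ℤ) : ℝ) / 2 = (w : ℝ) := by push_cast; ring
    rw [e1, e2, ss_int, sub_zero, abs_of_nonneg (ss_nonneg _)]
    exact ss_half w
  · have e1 : (((2 * w + 1 : ℤ) : ℝ) + 1) / 2 = ((w + 1 : ℤ) : ℝ) := by push_cast; ring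
    have e2 : ((2 * w + 1 : ℤ) : ℝ) / 2 = (w : ℝ) + 1 / 2 := by push_cast; ring
    rw [e1, e2, ss_int, zero_sub, abs_neg, abs_of_nonneg (ss_nonneg _)]
    exact ss_half w

/-- the function -/
noncomputable def gg (x : ℝ) : ℝ := ∑' k : ℕ, (1 / 2 : ℝ) ^ k * ss (8 ^ k * x)

theorem gg_bd (k : ℕ) (x : ℝ) : ‖(1 / 2 : ℝ) ^ k * ss (8 ^ k * x)‖ ≤ (1 / 2 : ℝ) ^ k := by
  rw [Real.norm_eq_abs, abs_of_nonneg (mul_nonneg (by positivity) (ss_nonneg _))]
  exact mul_le_of_le_one_right (by positivity) (ss_le_one _)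

theorem gg_cont : Continuous gg := by
  apply continuous_tsum _ summable_geometric_two gg_bd
  intro k
  exact continuous_const.mul (ss_cont.comp (continuous_const.mul continuous_id))

theorem gg_bounded (x : ℝ) : |gg x| ≤ 2 := by
  have h : ‖gg x‖ ≤ 2 := tsum_of_norm_bounded hasSum_geometric_two (fun k => gg_bd k x)
  rwa [Real.norm_eq_abs] at h

/-- values at the points of the grid -/
theorem gg_grid (n : ℕ) (z : ℤ) : gg ((z : ℝ) / (2 * 8 ^ n)) =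
    ∑ k ∈ Finset.range (n + 1), (1 / 2 : ℝ) ^ k * ss (8 ^ k * ((z : ℝ) / (2 * 8 ^ n))) := by
  unfold gg
  apply tsum_eq_sum
  intro k hk
  rw [Finset.mem_range, not_lt] at hk
  obtain ⟨j, rfl⟩ := Nat.exists_eq_add_of_le hk
  have e : (8 : ℝ) ^ (n + 1 + j) * ((z : ℝ) / (2 * 8 ^ n)) = ((4 * 8 ^ j * z : ℤ) : ℝ) := by
    push_cast
    rw [pow_add, pow_succ]
    field_simp
    ring
  rw [e, ss_int, mul_zero]

theorem gg_incr (n : ℕ) (z : ℤ) : (1 / 2 : ℝ) ^ n / 3 ≤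
    |gg (((z : ℝ) + 1) / (2 * 8 ^ n)) - gg ((z : ℝ) / (2 * 8 ^ n))| := by
  have h1 := gg_grid n z
  have h2 := gg_grid n (z + 1)
  rw [Int.cast_add, Int.cast_one] at h2
  rw [h1, h2, ← Finset.sum_sub_distrib, Finset.sum_range_succ]
  have e1 : (8 : ℝ) ^ n * (((z : ℝ) + 1) / (2 * 8 ^ n)) = ((z : ℝ) + 1) / 2 := by
    field_simp
  have e2 : (8 : ℝ) ^ n * ((z : ℝ) / (2 * 8 ^ n)) = (z : ℝ) / 2 := by
    field_simp
  rw [e1, e2]
  have h3 : |∑ k ∈ Finset.range n, ((1 / 2 : ℝ) ^ k * ss (8 ^ k * (((z : ℝ) + 1) / (2 * 8 ^ n))) -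
      (1 / 2 : ℝ) ^ k * ss (8 ^ k * ((z : ℝ) / (2 * 8 ^ n))))| ≤ (1 / 2 : ℝ) ^ n / 6 := by
    refine (Finset.abs_sum_le_sum_abs _ _).trans ?_
    have h4 : ∀ k ∈ Finset.range n,
        |(1 / 2 : ℝ) ^ k * ss (8 ^ k * (((z : ℝ) + 1) / (2 * 8 ^ n))) -
          (1 / 2 : ℝ) ^ k * ss (8 ^ k * ((z : ℝ) / (2 * 8 ^ n)))| ≤ 4 ^ k / (2 * 8 ^ n) := by
      intro k _
      rw [← mul_sub, abs_mul, abs_of_nonneg (by positivity : (0 : ℝ) ≤ (1 / 2) ^ k)]
      have h5 := ss_lip (8 ^ k * (((z : ℝ) + 1) / (2 * 8 ^ n))) (8 ^ k * ((z : ℝ) / (2 * 8 ^ n)))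
      have e3 : (8 : ℝ) ^ k * (((z : ℝ) + 1) / (2 * 8 ^ n)) - 8 ^ k * ((z : ℝ) / (2 * 8 ^ n)) =
          8 ^ k / (2 * 8 ^ n) := by
        field_simp
        ring
      rw [e3, abs_of_nonneg (by positivity : (0 : ℝ) ≤ 8 ^ k / (2 * 8 ^ n))] at h5
      refine (mul_le_mul_of_nonneg_left h5 (by positivity : (0 : ℝ) ≤ (1 / 2) ^ k)).trans
        (le_of_eq ?_)
      have e4 : (4 : ℝ) ^ k = (1 / 2) ^ k * 8 ^ k := by
        rw [← mul_pow]
        norm_num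
      rw [e4]
      ring
    refine (Finset.sum_le_sum h4).trans ?_
    rw [← Finset.sum_div, geom_sum_eq (by norm_num)]
    have e5 : (8 : ℝ) ^ n = 4 ^ n * 2 ^ n := by
      rw [← mul_pow]
      norm_num
    have e6 : (1 / 2 : ℝ) ^ n = 1 / 2 ^ n := by
      rw [div_pow, one_pow]
    have e7 : (4 : ℝ) - 1 = 3 := by norm_num
    rw [e5, e6, e7, div_div, div_div, div_le_div_iff₀ (by positivity) (by positivity)]
    have h6 : (0 : ℝ) < 4 ^ n := by positivity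
    have h7 : (0 : ℝ) < 2 ^ n := by positivity
    nlinarith
  have h8 : (1 / 2 : ℝ) ^ n / 2 ≤
      |(1 / 2 : ℝ) ^ n * ss (((z : ℝ) + 1) / 2) - (1 / 2 : ℝ) ^ n * ss ((z : ℝ) / 2)| := by
    rw [← mul_sub, abs_mul, abs_of_nonneg (by positivity : (0 : ℝ) ≤ (1 / 2) ^ n)]
    have := mul_le_mul_of_nonneg_left (ss_step z) (by positivity : (0 : ℝ) ≤ (1 / 2) ^ n)
    linarith
  obtain ⟨A, hA⟩ : ∃ A : ℝ, A =
      ∑ k ∈ Finset.range n, ((1 / 2 : ℝ) ^ k * ss (8 ^ k * (((z : ℝ) + 1) / (2 * 8 ^ n))) -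
      (1 / 2 : ℝ) ^ k * ss (8 ^ k * ((z : ℝ) / (2 * 8 ^ n)))) := ⟨_, rfl⟩
  obtain ⟨B, hB⟩ : ∃ B : ℝ, B =
      (1 / 2 : ℝ) ^ n * ss (((z : ℝ) + 1) / 2) - (1 / 2 : ℝ) ^ n * ss ((z : ℝ) / 2) := ⟨_, rfl⟩
  rw [← hA] at h3 ⊢
  rw [← hB] at h8 ⊢
  have h9 : |B| ≤ |A + B| + |A| := by
    have := abs_sub (A + B) A
    rwa [add_sub_cancel_left] at this
  linarith

theorem gg_var (a b : ℝ) (hab : a < b) : eVariationOn gg (Icc a b) = ⊤ := by
  by_contra hne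
  -- an interval of the grid
  obtain ⟨N, hN⟩ : ∃ N : ℕ, (1 / 8 : ℝ) ^ N < (b - a) / 2 :=
    exists_pow_lt_of_lt_one (by linarith) (by norm_num)
  have h8 : (0 : ℝ) < 8 ^ N := by positivity
  have hN' : 2 < (b - a) * 8 ^ N := by
    have h1 : (1 / 8 : ℝ) ^ N * 8 ^ N = 1 := by
      rw [← mul_pow]
      norm_num
    have h2 := mul_lt_mul_of_pos_right hN h8
    rw [h1] at h2
    linarith
  obtain ⟨j, hj⟩ : ∃ j : ℤ, j = ⌈a * 8 ^ N⌉ := ⟨_, rfl⟩
  have hj1 : a * 8 ^ N ≤ j := by rw [hj]; exact Int.le_ceil _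
  have hj2 : (j : ℝ) < a * 8 ^ N + 1 := by rw [hj]; exact Int.ceil_lt_add_one _
  have hj3 : (j : ℝ) + 1 ≤ b * 8 ^ N := by nlinarith
  have key : ∀ m : ℕ, 2 / 3 * (1 / 2 : ℝ) ^ N * 4 ^ m ≤ (eVariationOn gg (Icc a b)).toReal := by
    intro m
    obtain ⟨u, hu⟩ : ∃ u : ℕ → ℝ, u = fun i : ℕ =>
      (((2 * j * 8 ^ m + (i : ℤ) : ℤ) : ℝ)) / (2 * 8 ^ (N + m)) := ⟨_, rfl⟩
    have hmono : MonotoneOn u (Iic (2 * 8 ^ m)) := by
      intro i _ i' _ h
      rw [hu]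
      show (((2 * j * 8 ^ m + i : ℤ) : ℝ)) / (2 * 8 ^ (N + m)) ≤
        (((2 * j * 8 ^ m + i' : ℤ) : ℝ)) / (2 * 8 ^ (N + m))
      apply div_le_div_of_nonneg_right _ (by positivity)
      push_cast
      have : (i : ℝ) ≤ i' := by exact_mod_cast h
      linarith
    have h8m : (0 : ℝ) < 8 ^ m := by positivity
    have hmem : ∀ i ≤ 2 * 8 ^ m, u i ∈ Icc a b := by
      intro i hi
      have hi' : (i : ℝ) ≤ 2 * 8 ^ m := by exact_mod_cast hi
      have hi0 : (0 : ℝ) ≤ i := Nat.cast_nonneg i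
      rw [hu]
      show (((2 * j * 8 ^ m + i : ℤ) : ℝ)) / (2 * 8 ^ (N + m)) ∈ Icc a b
      rw [mem_Icc, le_div_iff₀ (by positivity), div_le_iff₀ (by positivity), pow_add]
      push_cast
      constructor
      · have := mul_le_mul_of_nonneg_right hj1 h8m.le
        nlinarith
      · have := mul_le_mul_of_nonneg_right hj3 h8m.le
        nlinarith
    have h1 := eVariationOn.sum_le_of_monotoneOn_Iic (f := gg) hmono hmem
    have h2 : ∀ i ∈ Finset.range (2 * 8 ^ m), ENNReal.ofReal ((1 / 2 : ℝ) ^ (N + m) / 3) ≤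
        edist (gg (u (i + 1))) (gg (u i)) := by
      intro i _
      rw [edist_dist]
      apply ENNReal.ofReal_le_ofReal
      rw [Real.dist_eq]
      have h3 := gg_incr (N + m) (2 * j * 8 ^ m + i)
      have e1 : u (i + 1) = (((2 * j * 8 ^ m + i : ℤ) : ℝ) + 1) / (2 * 8 ^ (N + m)) := by
        rw [hu]
        push_cast
        ring
      have e2 : u i = (((2 * j * 8 ^ m + i : ℤ) : ℝ)) / (2 * 8 ^ (N + m)) := by rw [hu]
      rw [e1, e2]
      exact h3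
    have h4 := (Finset.sum_le_sum h2).trans h1
    rw [Finset.sum_const, Finset.card_range, nsmul_eq_mul] at h4
    have h5 : (((2 * 8 ^ m : ℕ)) : ENNReal) * ENNReal.ofReal ((1 / 2 : ℝ) ^ (N + m) / 3) =
        ENNReal.ofReal (2 / 3 * (1 / 2 : ℝ) ^ N * 4 ^ m) := by
      rw [← ENNReal.ofReal_natCast, ← ENNReal.ofReal_mul (Nat.cast_nonneg _)]
      congr 1
      push_cast
      rw [pow_add]
      have e3 : (4 : ℝ) ^ m = 8 ^ m * (1 / 2) ^ m := by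
        rw [← mul_pow]
        norm_num
      rw [e3]
      ring
    rw [h5] at h4
    exact (ENNReal.ofReal_le_iff_le_toReal hne).1 h4
  have hc : (0 : ℝ) < 2 / 3 * (1 / 2 : ℝ) ^ N := by positivity
  obtain ⟨m, hm⟩ := pow_unbounded_of_one_lt
    ((eVariationOn gg (Icc a b)).toReal / (2 / 3 * (1 / 2 : ℝ) ^ N)) (by norm_num : (1 : ℝ) < 4)
  rw [div_lt_iff₀ hc] at hm
  have := key m
  linarith

theorem nbv : S_NBV := ⟨gg, gg_cont, ⟨2, gg_bounded⟩, gg_var⟩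

end Pool.Agent.W688.SP
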